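import Mathlib

set_option autoImplicit false

namespace Pool.Agent.Results.MP_d39bc3_gt.No

open MeasureTheory Set Filter Topology

abbrev E (n : ℕ) := EuclideanSpace ℝ (Fin (n + 1))

variable {n : ℕ}

/-- The section of `Ω` by the hyperplane `⟪v, x⟫ = t`. -/
def sec (Ω : Set (E n)) (v : E n) (t : ℝ) : Set (E n) := Ω ∩ {x | inner ℝ v x = t}

/-- Section-centroid collinearity property. -/
def SCCP (Ω : Set (E n)) : Prop :=
  ∀ v ≠ 0, (∀ t, Bornology.IsBounded (sec Ω v t)) →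
    Collinear ℝ {c | ∃ t, (sec Ω v t).Nonempty ∧ c = ⨍ x in sec Ω v t, x ∂Measure.hausdorffMeasure n}

/-- Near each boundary point `Ω` is a regular superlevel set of a smooth function. -/
def SmoothBdry (Ω : Set (E n)) : Prop :=
  ∀ p ∈ frontier Ω, ∃ F : E n → ℝ, ContDiff ℝ (⊤ : ℕ∞) F ∧ fderiv ℝ F p ≠ 0 ∧
    ∀ᶠ x in 𝓝 p, x ∈ Ω ↔ 0 < F x

/-- `S` lies on a quadric. -/
def OnQuadric (S : Set (E n)) : Prop :=
  ∃ (A : Matrix (Fin (n + 1)) (Fin (n + 1)) ℝ) (b : Fin (n + 1) → ℝ) (c : ℝ), A.IsSymm ∧ A ≠ 0 ∧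
    ∀ x ∈ S, ∑ i, ∑ j, A i j * x i * x j + ∑ i, b i * x i + c = 0

theorem inv (v : E 2) (hv : v ≠ 0) (T : E 2 ≃L[ℝ] E 2) (h3 : ∀ x, T (T (T x)) = x)
    (hT : ∀ x, inner ℝ v (T x) = inner ℝ v x) (p : E 2) (hp : T p = p) (Ω : Set (E 2))
    (hΩ : MeasurableSet Ω) (h : T ⁻¹' Ω = Ω) :
    T (⨍ x in sec Ω v (inner ℝ v p), x ∂Measure.hausdorffMeasure (2 : ℕ)) =
      ⨍ x in sec Ω v (inner ℝ v p), x ∂Measure.hausdorffMeasure (2 : ℕ) := by
  let M : Submodule ℝ (E 2) := LinearMap.ker (innerₛₗ ℝ v)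
  have hM : ∀ x, x ∈ M ↔ inner ℝ v x = 0 := fun x => Iff.rfl
  have h2 : Module.finrank ℝ M = 2 := by
    have := Module.Dual.finrank_ker_add_one_of_ne_zero (f := innerₛₗ ℝ v) fun h =>
      hv (inner_self_eq_zero.1 (LinearMap.congr_fun h v))
    simpa using this
  let φ : M → E 2 := fun u => p + u
  have hφ : Isometry φ := Isometry.of_dist_eq fun a b => by simp [φ, Subtype.dist_eq]
  have hr : range φ = {x | inner ℝ v x = inner ℝ v p} := by
    ext x
    refine ⟨?_, fun hx => ⟨⟨x - p, (hM _).2 (by rw [inner_sub_right, hx, sub_self])⟩, by simp [φ]⟩⟩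
    rintro ⟨u, rfl⟩
    simp [φ, inner_add_right, (hM _).1 u.2]
  let L : M →ₗ[ℝ] M := (T : E 2 →ₗ[ℝ] E 2).restrict fun x hx => (hM _).2 ((hT x).trans hx)
  have hd : LinearMap.det L = 1 := by
    have : L ^ 3 = 1 := by
      ext x : 2
      simpa [L, pow_succ] using h3 x
    exact (Odd.pow_inj (by decide : Odd 3)).1 (by rw [← map_pow, this, map_one, one_pow])
  have h4 := hφ.map_hausdorffMeasure (d := Module.finrank ℝ M) (.inl (by positivity))
  have h5 : ((Measure.hausdorffMeasure (Module.finrank ℝ M)).restrict (range φ)).map T =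
      (Measure.hausdorffMeasure (Module.finrank ℝ M)).restrict (range φ) := by
    rw [← h4, Measure.map_map T.continuous.measurable hφ.continuous.measurable,
      show T ∘ φ = φ ∘ L from funext fun u => by simp [φ, L, hp], ← Measure.map_map
        hφ.continuous.measurable L.continuous_of_finiteDimensional.measurable,
      Measure.map_linearMap_addHaar_eq_smul_addHaar _ (by simp [hd])]
    simp [hd]
  rw [h2, hr] at h5
  rw [sec, ← Measure.restrict_restrict hΩ, average_eq, map_smul, ← T.integral_comp_comm]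
  congr 1
  conv_rhs => rw [← h5, ← T.coe_toHomeomorph, T.toHomeomorph.measurableEmbedding.setIntegral_map]
  simp [h]

def Ω : Set (E 2) := {x | (∀ i, 0 < x i) ∧ 1 < x 0 * x 1 * x 2}

theorem op : IsOpen Ω := by
  rw [Ω, ofPred_and, ofPred_forall]
  exact (isOpen_iInter_of_finite fun i => isOpen_lt (by fun_prop) (by fun_prop)).inter
    (isOpen_lt (by fun_prop) (by fun_prop))

theorem cl : closure Ω = {x | (∀ i, 0 < x i) ∧ 1 ≤ x 0 * x 1 * x 2} := by
  refine subset_antisymm (fun x hx => ?_) fun x hx => ?_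
  · have h1 : IsClosed {x : E 2 | (∀ i, 0 ≤ x i) ∧ 1 ≤ x 0 * x 1 * x 2} := by
      rw [ofPred_and, ofPred_forall]
      exact (isClosed_iInter fun i => isClosed_le (by fun_prop) (by fun_prop)).inter
        (isClosed_le (by fun_prop) (by fun_prop))
    obtain ⟨h2, h3⟩ := closure_minimal (fun x hx => And.intro (fun i => (hx.1 i).le) hx.2.le) h1 hx
    refine ⟨fun i => (h2 i).lt_of_ne' fun h => ?_, h3⟩
    fin_cases i <;> simp_all <;> linarith
  · have : Tendsto (fun t : ℝ => t • x) (𝓝[>] 1) (𝓝 x) := by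
      simpa using ((by fun_prop : Continuous fun t : ℝ => t • x).tendsto 1).mono_left
        nhdsWithin_le_nhds
    refine mem_closure_of_tendsto this (eventually_mem_nhdsWithin.mono fun t (ht : 1 < t) => ?_)
    refine ⟨fun i => mul_pos (by linarith) (hx.1 i), ?_⟩
    have := one_lt_pow₀ ht three_ne_zero
    simp only [PiLp.smul_apply, smul_eq_mul]
    nlinarith [hx.2]

theorem fr : frontier Ω = {x | (∀ i, 0 < x i) ∧ x 0 * x 1 * x 2 = 1} := by
  rw [op.frontier_eq, cl]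
  ext x
  simp only [Ω, Set.mem_sdiff, mem_ofPred_eq]
  grind

theorem strict : StrictConvex ℝ (closure Ω) := by
  intro x hx y hy hxy a b ha hb hab
  refine interior_maximal subset_closure op ?_
  rw [cl] at hx hy
  have h1 : ∀ i, 0 < a * x i + b * y i := fun i => by
    have := hx.1 i; have := hy.1 i; positivity
  have lg : ∀ z : Fin 3 → ℝ, (∀ i, 0 < z i) → Real.log (z 0 * z 1 * z 2) = ∑ i, Real.log (z i) :=
    fun z hz => by
      rw [Fin.sum_univ_three, Real.log_mul (mul_pos (hz 0) (hz 1)).ne' (hz 2).ne',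
        Real.log_mul (hz 0).ne' (hz 1).ne']
  obtain ⟨j, hj⟩ : ∃ j, x j ≠ y j := by
    by_contra! h
    exact hxy (PiLp.ext h)
  have h2 := Finset.sum_lt_sum (s := .univ) (fun i _ => strictConcaveOn_log_Ioi.concaveOn.2
    (hx.1 i) (hy.1 i) ha.le hb.le hab) ⟨j, Finset.mem_univ _, strictConcaveOn_log_Ioi.2
      (hx.1 j) (hy.1 j) hj ha hb hab⟩
  simp only [smul_eq_mul, Finset.sum_add_distrib, ← Finset.mul_sum] at h2
  rw [← lg _ hx.1, ← lg _ hy.1, ← lg _ h1] at h2
  refine ⟨h1, (Real.log_pos_iff (mul_pos (mul_pos (h1 0) (h1 1)) (h1 2)).le).1 (lt_of_le_of_lt ?_ h2)⟩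
  have := Real.log_nonneg hx.2
  have := Real.log_nonneg hy.2
  positivity

theorem sccp : SCCP Ω := fun v hv hb => by
  have hi : ∀ x : E 2, inner ℝ v x = v 0 * x 0 + v 1 * x 1 + v 2 * x 2 := fun x => by
    simp [PiLp.inner_apply, Fin.sum_univ_three, mul_comm]
  have key : ∀ d : E 2, (∀ i, 0 ≤ d i) → inner ℝ v d = 0 → ∀ i, d i = 0 := fun d hd h i => by
    obtain ⟨r, hr⟩ := isBounded_iff_forall_norm_le.1 (hb (inner ℝ v !₂[2, 2, 2]))
    by_contra h0
    have h1 : ∀ j, 2 + |r| / d i * d j = (!₂[2, 2, 2] + (|r| / d i) • d : E 2) j := fun j => by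
      fin_cases j <;> rfl
    have h2 : ∀ j, 0 ≤ |r| / d i * d j := fun j => by have := hd i; have := hd j; positivity
    have := (PiLp.norm_apply_le _ i).trans (hr (!₂[2, 2, 2] + (|r| / d i) • d)
      ⟨⟨fun j => by linarith [h1 j, h2 j], ?_⟩, by simp [inner_add_right, inner_smul_right, h]⟩)
    · rw [← h1, div_mul_cancel₀ _ h0, Real.norm_eq_abs] at this
      linarith [le_abs_self r, le_abs_self (2 + |r|)]
    · rw [← h1, ← h1, ← h1]
      nlinarith [h2 0, h2 1, h2 2, mul_nonneg (h2 0) (h2 1), mul_nonneg (h2 0) (h2 2),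
        mul_nonneg (h2 1) (h2 2), mul_nonneg (mul_nonneg (h2 0) (h2 1)) (h2 2)]
  have ab : ∀ a b : ℝ, a * b ≤ 0 → a * |b| + b * |a| = 0 := fun a b h => by
    cases abs_cases a <;> cases abs_cases b <;> nlinarith
  have p01 : v 0 * v 1 ≤ 0 → v 1 = 0 ∧ v 0 = 0 := fun h => by
    simpa [Fin.forall_fin_succ] using key !₂[|v 1|, |v 0|, 0]
      (fun i => by fin_cases i <;> simp) (by simpa [hi] using ab _ _ h)
  have p12 : v 1 * v 2 ≤ 0 → v 2 = 0 ∧ v 1 = 0 := fun h => by
    simpa [Fin.forall_fin_succ] using key !₂[0, |v 2|, |v 1|]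
      (fun i => by fin_cases i <;> simp) (by simpa [hi] using ab _ _ h)
  have p02 : v 0 * v 2 ≤ 0 → v 2 = 0 ∧ v 0 = 0 := fun h => by
    simpa [Fin.forall_fin_succ] using key !₂[|v 2|, 0, |v 0|]
      (fun i => by fin_cases i <;> simp) (by simpa [hi] using ab _ _ h)
  have hv' : ¬(v 0 = 0 ∧ v 1 = 0 ∧ v 2 = 0) := fun h => hv (by ext i; fin_cases i <;> simp [h])
  have h0 : v 0 ≠ 0 := fun h => hv' ⟨h, (p01 (by simp [h])).1, (p02 (by simp [h])).1⟩
  have h1 : v 1 ≠ 0 := fun h => h0 (p01 (by simp [h])).2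
  have h2 : v 2 ≠ 0 := fun h => h0 (p02 (by simp [h])).2
  have dv : ∀ a b : ℝ, 0 < a * b → 0 < a / b := fun a b h => div_pos_iff.2 (mul_pos_iff.1 h)
  have q0 : 0 < v 1 / v 0 := dv _ _ (by rw [mul_comm]; exact not_le.1 fun h => h0 (p01 h).2)
  have q1 : 0 < v 2 / v 1 := dv _ _ (by rw [mul_comm]; exact not_le.1 fun h => h1 (p12 h).2)
  have q2 : 0 < v 0 / v 2 := dv _ _ (not_le.1 fun h => h0 (p02 h).2)
  let f : E 2 →ₗ[ℝ] E 2 :=
    { toFun x := !₂[v 1 / v 0 * x 1, v 2 / v 1 * x 2, v 0 / v 2 * x 0]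
      map_add' x y := by ext i; fin_cases i <;> simp [mul_add]
      map_smul' a x := by ext i; fin_cases i <;> simp [mul_left_comm] }
  have h3 : ∀ x, f (f (f x)) = x := fun x => by
    ext i; fin_cases i <;> simp [f] <;> field_simp
  let T := (LinearEquiv.ofLinearMap f (f ∘ₗ f) (LinearMap.ext h3)
    (LinearMap.ext h3)).toContinuousLinearEquiv
  have hT : ∀ x, T x = !₂[v 1 / v 0 * x 1, v 2 / v 1 * x 2, v 0 / v 2 * x 0] := fun x => rfl
  refine (collinear_iff_exists_forall_eq_smul_vadd _).2 ⟨0, !₂[1 / v 0, 1 / v 1, 1 / v 2], ?_⟩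
  rintro c ⟨t, -, hc⟩
  have h4 := inv v hv T h3 (fun x => by simp [hT, hi]; field_simp; ring)
    !₂[t / 3 / v 0, t / 3 / v 1, t / 3 / v 2]
    (by ext i; fin_cases i <;> simp [hT] <;> field_simp) Ω op.measurableSet (by
      ext x
      simp only [Ω, hT, mem_preimage, mem_ofPred_eq, Fin.forall_fin_succ]
      simp [q0, q1, q2, show v 1 / v 0 * x 1 * (v 2 / v 1 * x 2) * (v 0 / v 2 * x 0) =
        x 0 * x 1 * x 2 by field_simp]
      tauto)
  rw [show inner ℝ v !₂[t / 3 / v 0, t / 3 / v 1, t / 3 / v 2] = t by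
    simp [hi]; field_simp; ring, ← hc, hT] at h4
  have h5 := congrArg (· 0) h4
  have h6 := congrArg (· 2) h4
  simp at h5 h6
  field_simp at h5 h6
  refine ⟨v 0 * c 0, ?_⟩
  ext i; fin_cases i <;> simp <;> field_simp <;> linarith

theorem result : ∃ Ω : Set (E 2), IsOpen Ω ∧ Ω.Nonempty ∧ Convex ℝ Ω ∧
    StrictConvex ℝ (closure Ω) ∧ SmoothBdry Ω ∧ SCCP Ω ∧ ¬OnQuadric (frontier Ω) := by
  have hi : interior (closure Ω) = Ω := by
    refine subset_antisymm (fun x hx => ?_) (interior_maximal subset_closure op)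
    have : Tendsto (fun t : ℝ => t • x) (𝓝[<] 1) (𝓝 x) := by
      simpa using ((by fun_prop : Continuous fun t : ℝ => t • x).tendsto 1).mono_left
        nhdsWithin_le_nhds
    obtain ⟨t, h1, h2, h3⟩ := ((this.eventually_mem (mem_interior_iff_mem_nhds.1 hx)).and
      (Ioo_mem_nhdsLT (zero_lt_one' ℝ))).exists
    have h4 := interior_subset hx
    rw [cl] at h1 h4
    refine ⟨h4.1, ?_⟩
    have h5 := pow_lt_one₀ h2.le h3 three_ne_zero
    have h6 := h1.2
    simp only [PiLp.smul_apply, smul_eq_mul] at h6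
    nlinarith [h4.2]
  refine ⟨Ω, op, ⟨!₂[2, 2, 2], fun i => by fin_cases i <;> simp, by simp; norm_num⟩,
    hi ▸ strict.convex.interior, strict,
    fun p hp => ⟨fun x => x 0 * x 1 * x 2 - 1, by fun_prop, fun h => ?_, ?_⟩, sccp, ?_⟩
  · have P := fun i => (EuclideanSpace.proj i : E 2 →L[ℝ] ℝ).hasFDerivAt (x := p)
    rw [fr] at hp
    have := congrArg (· (EuclideanSpace.single 2 1))
      (((((P 0).mul (P 1)).mul (P 2)).sub_const 1).fderiv.symm.trans h)
    simp [(hp.1 _).ne'] at this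
  · rw [fr] at hp
    filter_upwards [eventually_all.2 fun i => ContinuousAt.eventually_lt (f := fun _ => (0 : ℝ))
      (g := fun x : E 2 => x i) (by fun_prop) (by fun_prop) (hp.1 i)] with x hx
    simp [Ω, hx]
  · rintro ⟨A, b, c, h1, h2, h3⟩
    rw [fr] at h3
    have h : ∀ s t : ℝ, 0 < s → 0 < t → _ := fun s t hs ht =>
      h3 !₂[s, t, 1 / (s * t)] ⟨fun i => by fin_cases i <;> simp <;> positivity, by
        simp; field_simp⟩
    have e1 := h 1 1
    have e2 := h 2 1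
    have e3 := h 3 1
    have e4 := h 4 1
    have e5 := h 5 1
    have e6 := h 1 2
    have e7 := h 1 3
    have e8 := h 2 2
    have e9 := h 2 3
    have e10 := h 3 2
    have e11 := h 1 4
    have s1 := h1.apply 0 1
    have s2 := h1.apply 0 2
    have s3 := h1.apply 1 2
    simp [Fin.sum_univ_succ] at e1 e2 e3 e4 e5 e6 e7 e8 e9 e10 e11
    refine h2 ?_
    ext i j
    fin_cases i <;> fin_cases j <;> simp <;> linarith

end Pool.Agent.Results.MP_d39bc3_gt.No
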